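import Pool.Agent.U642.LP.Eq
import Pool.Agent.U642.WP.Reg

set_option autoImplicit false

/-! # Points on a fibre in a box all of whose subset sums are in classes with large least prime -/

namespace Pool.Agent.U642.LP

open Finset Filter Polynomial
open Pool.Agent.N647.FG (AP)
open Pool.Agent.W147.PS (ff ev_pow)
open Pool.Agent.N542.PT (Crit crit_balanced)
open Pool.Agent.U642.QS (pts)

open scoped Classical in
/-- the criterion in progressions at the points of a fibre -/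
theorem ap_of {ι : Type} (r m : ℕ) (F : ι → MvPolynomial (Fin r) ℤ) (hF : Crit r F)
    (hlin : ∀ j, ∀ (u : ℤ) (x : Fin r → ℤ),
      MvPolynomial.eval (fun k => u * x k) (F j) = u * MvPolynomial.eval x (F j))
    (δ : ℝ) (hδ : 0 < δ) (hδ1 : δ ≤ 1) :
    ∃ κ : ℝ, 0 < κ ∧ ∀ᶠ P : ℝ in atTop, ∀ (p : ℕ) [Fact p.Prime], (p : ℝ) = P →
    ∀ (G : (Fin r → ZMod p) → Fin m → ZMod p) (a : Fin m → ZMod p) (M : Fin r → ℤ)
      (L : Fin r → ℕ),
    (∀ j, (p : ℝ) ^ δ ≤ L j) →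
    (∀ q : ℕ, 1 ≤ q → (q : ℝ) ≤ (p : ℝ) ^ (δ / 4) → ∀ ρ : Fin r → ℤ, ∀ t : Fin m → ZMod p, t ≠ 0 →
      ‖∑ x ∈ Fintype.piFinset (fun j => AP (M j) (L j) q (ρ j)),
        (ZMod.stdAddChar (∑ i, t i * G (fun j => ((x j : ℤ) : ZMod p)) i) : ℂ)‖ ≤
      (∏ j, (L j : ℝ)) * (p : ℝ) ^ (-((m : ℝ) + δ))) →
    (∏ j, (L j : ℝ)) / (p : ℝ) ^ ((m : ℝ) + δ) ≤
      (((pts G a (fun j => Ioc (M j) (M j + L j))).filter
        (fun x => GoodAP F p (κ * ff p) ((p : ℝ) ^ δ) x)).card : ℝ) := by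
  obtain ⟨κ, hκ, hcrit⟩ := crit_ap r F hF hlin (δ / 4) (by positivity) (by linarith)
  refine ⟨κ, hκ, ?_⟩
  filter_upwards [hcrit, gen_eq r m δ hδ, ev_pow (-δ) (-(δ / 4)) 2 (by linarith),
    eventually_gt_atTop (1 : ℝ)] with P g1 g2 g3 g4
  intro p hp hpP G a M L hL hexp
  subst hpP
  have hp1 : (1 : ℝ) < p := g4
  have hp0 : (0 : ℝ) < p := by linarith
  obtain ⟨h1, h2⟩ := g2 p rfl G a M L hL hexp _ rfl
  have h3 := g1 p Fact.out rfl _ h2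
  have hle : (((pts G a (fun j => Ioc (M j) (M j + L j))).filter
        (fun x => GoodAP F p (κ * ff p) ((p : ℝ) ^ (δ / 4)) x)).card : ℝ) ≤
      (((pts G a (fun j => Ioc (M j) (M j + L j))).filter
        (fun x => GoodAP F p (κ * ff p) ((p : ℝ) ^ δ) x)).card : ℝ) := by
    rw [Nat.cast_le]
    apply card_le_card
    intro x hx
    rw [mem_filter] at hx ⊢
    refine ⟨hx.1, fun j n hn => ?_⟩
    obtain ⟨l, hl, hl2, hl3⟩ := hx.2 j n hn
    exact ⟨l, hl, hl2.trans (Real.rpow_le_rpow_of_exponent_le hp1.le (by linarith)), hl3⟩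
  refine le_trans ?_ (h3.trans hle)
  have hV0 : 0 ≤ ∏ j, (L j : ℝ) := prod_nonneg fun j _ => Nat.cast_nonneg _
  have h5 : (∏ j, (L j : ℝ)) / (p : ℝ) ^ ((m : ℝ) + δ) =
      (p : ℝ) ^ (-δ) * ((∏ j, (L j : ℝ)) / (p : ℝ) ^ m) := by
    rw [Real.rpow_add hp0, Real.rpow_natCast, Real.rpow_neg hp0.le]
    field_simp
  rw [h5]
  have h6 : 0 ≤ (∏ j, (L j : ℝ)) / (p : ℝ) ^ m := by positivity
  have h7 : 0 < (p : ℝ) ^ (-(δ / 4)) := Real.rpow_pos_of_pos hp0 _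
  calc (p : ℝ) ^ (-δ) * ((∏ j, (L j : ℝ)) / (p : ℝ) ^ m)
      = 2 * (p : ℝ) ^ (-δ) * ((∏ j, (L j : ℝ)) / (p : ℝ) ^ m / 2) := by ring
    _ ≤ (p : ℝ) ^ (-(δ / 4)) * ((∏ j, (L j : ℝ)) / (p : ℝ) ^ m / 2) := by
        apply mul_le_mul_of_nonneg_right _ (by positivity)
        linarith
    _ ≤ _ := mul_le_mul_of_nonneg_left h1 h7.le

/-- all the classes of the subset sums of `x` modulo `q` have least prime `> B` -/
def Large {r : ℕ} (q : ℕ) (B : ℝ) (x : Fin r → ℤ) : Prop :=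
  ∀ S : Finset (Fin r), S.Nonempty → ∀ l : ℕ, l.Prime → (q : ℤ) ∣ (l : ℤ) - ∑ j ∈ S, x j →
    B < l

/-- from prime factors to least primes -/
lemma large_of {r : ℕ} (q : ℕ) (hq : 0 < q) (ρ y : ℝ) (x : Fin r → ℤ)
    (hx : ∀ j, y < x j ∧ r * x j ≤ q) (hy : 0 ≤ y) (hgood : GoodAP (subF r) q ρ y x) :
    Large q (ρ * q) x := by
  intro S hS l hl hdvd
  by_contra hcon
  push Not at hcon
  obtain ⟨i, hi⟩ := hdvd
  have hqR : (0 : ℝ) < q := by exact_mod_cast hq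
  have hx0 : ∀ j, 0 < x j := fun j => by
    have : (0 : ℝ) < x j := lt_of_le_of_lt hy (hx j).1
    exact_mod_cast this
  have hr : 0 < r := by
    obtain ⟨j, _⟩ := hS
    exact lt_of_le_of_lt (Nat.zero_le _) j.2
  -- the sum is between `y` and `q`
  have hsum1 : y < ((∑ j ∈ S, x j : ℤ) : ℝ) := by
    obtain ⟨j, hj⟩ := hS
    refine (hx j).1.trans_le ?_
    have : x j ≤ ∑ j ∈ S, x j := single_le_sum (f := x) (fun k _ => (hx0 k).le) hj
    exact_mod_cast this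
  have hsum2 : ∑ j ∈ S, x j ≤ q := by
    have h1 : (r : ℤ) * ∑ j ∈ S, x j ≤ r * q := by
      rw [mul_sum]
      calc ∑ j ∈ S, (r : ℤ) * x j ≤ ∑ j ∈ S, (q : ℤ) := sum_le_sum fun j _ => (hx j).2
        _ = S.card * q := by rw [sum_const, nsmul_eq_mul]
        _ ≤ r * q := by
            apply mul_le_mul_of_nonneg_right _ (by positivity)
            have := card_le_univ S
            rw [Fintype.card_fin] at this
            exact_mod_cast this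
    exact le_of_mul_le_mul_left h1 (by exact_mod_cast hr)
  have hlpos : (0 : ℤ) < l := by exact_mod_cast hl.pos
  have hi0 : 0 ≤ i := by
    by_contra hneg
    push Not at hneg
    have h1 : (q : ℤ) * i ≤ q * (-1) := by
      apply mul_le_mul_of_nonneg_left (by omega) (by positivity)
    linarith
  have hlR : (l : ℝ) = ((∑ j ∈ S, x j : ℤ) : ℝ) + q * i := by
    have : (l : ℤ) = ∑ j ∈ S, x j + q * i := by linarith
    exact_mod_cast this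
  have hi0R : (0 : ℝ) ≤ i := by exact_mod_cast hi0
  have hiρ : |(i : ℝ)| ≤ ρ := by
    rw [abs_of_nonneg hi0R]
    have h1 : (q : ℝ) * i ≤ ρ * q := by linarith
    rw [mul_comm] at h1
    exact le_of_mul_le_mul_right h1 hqR
  obtain ⟨l', hl', h1, h2⟩ := hgood ⟨S, hS⟩ i hiρ
  rw [subF_eval] at h2
  have h3 : (l' : ℤ) ∣ (l : ℤ) := by
    have e : (l : ℤ) = ∑ j ∈ S, x j + i * q := by linarith
    rw [e]
    exact h2
  have h4 : l' = l := (Nat.prime_dvd_prime_iff_eq hl' hl).1 (by exact_mod_cast h3)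
  rw [h4] at h1
  have h5 : 0 ≤ (q : ℝ) * i := by positivity
  linarith

open scoped Classical in
/-- **boxes in `[0, p / r]`** -/
theorem ap_box (r m : ℕ) (δ : ℝ) (hδ : 0 < δ) (hδ1 : δ ≤ 1) :
    ∃ κ : ℝ, 0 < κ ∧ ∀ᶠ P : ℝ in atTop, ∀ (p : ℕ) [Fact p.Prime], (p : ℝ) = P →
    ∀ (G : (Fin r → ZMod p) → Fin m → ZMod p) (a : Fin m → ZMod p) (M : Fin r → ℤ)
      (L : Fin r → ℕ),
    (∀ j, 0 ≤ M j ∧ r * (M j + L j) ≤ p ∧ (p : ℝ) ^ δ ≤ L j) →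
    (∀ (M' : Fin r → ℤ) (L' : Fin r → ℕ), (∀ j, (L j : ℝ) ≤ 2 * L' j ∧ L' j ≤ L j) →
      ∀ q : ℕ, 1 ≤ q → (q : ℝ) ≤ (p : ℝ) ^ (δ / 16) → ∀ ρ : Fin r → ℤ,
      ∀ t : Fin m → ZMod p, t ≠ 0 →
      ‖∑ x ∈ Fintype.piFinset (fun j => AP (M' j) (L' j) q (ρ j)),
        (ZMod.stdAddChar (∑ i, t i * G (fun j => ((x j : ℤ) : ZMod p)) i) : ℂ)‖ ≤
      (∏ j, (L' j : ℝ)) * (p : ℝ) ^ (-((m : ℝ) + δ / 4))) →
    (∏ j, (L j : ℝ)) / (p : ℝ) ^ ((m : ℝ) + δ) ≤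
      (((pts G a (fun j => Ioc (M j) (M j + L j))).filter
        (fun x => Large p (κ * ff p * p) x)).card : ℝ) := by
  obtain ⟨h1, h2⟩ := subF_balanced r
  obtain ⟨κ, hκ, h⟩ := ap_of r m (subF r) (crit_balanced _ _ h2 h1) (by
    intro S u x
    rw [subF_eval, subF_eval, mul_sum]) (δ / 4) (by positivity) (by linarith)
  refine ⟨κ, hκ, ?_⟩
  filter_upwards [h, ev_pow (δ / 4) δ 4 (by linarith), ev_pow (-δ) (-(δ / 4)) (2 ^ r) (by linarith),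
    eventually_gt_atTop (1 : ℝ)] with P h g1 g2 g4
  intro p hp hpP G a M L hL hexp
  subst hpP
  have hp1 : (1 : ℝ) < p := g4
  have hp0 : (0 : ℝ) < p := by linarith
  have hppos : 0 < p := by exact_mod_cast hp0
  obtain ⟨N, hN⟩ : ∃ N : ℕ, N = ⌈(p : ℝ) ^ (δ / 4)⌉₊ := ⟨_, rfl⟩
  have hpδ : 1 ≤ (p : ℝ) ^ (δ / 4) := Real.one_le_rpow hp1.le (by positivity)
  have hN1 : (p : ℝ) ^ (δ / 4) ≤ N := by rw [hN]; exact Nat.le_ceil _
  have hN2 : (N : ℝ) ≤ 2 * (p : ℝ) ^ (δ / 4) := by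
    have h3 := Nat.ceil_lt_add_one (show 0 ≤ (p : ℝ) ^ (δ / 4) by linarith)
    rw [← hN] at h3
    linarith
  have hNL : ∀ j, 2 * (N : ℝ) ≤ L j := by
    intro j
    have := (hL j).2.2
    linarith
  have hNLn : ∀ j, N ≤ L j := by
    intro j
    have h3 := hNL j
    have h4 : (N : ℝ) ≤ L j := by
      have : (0 : ℝ) ≤ N := Nat.cast_nonneg _
      linarith
    exact_mod_cast h4
  have hcast : ∀ j, ((L j - N : ℕ) : ℝ) = L j - N := fun j => by rw [Nat.cast_sub (hNLn j)]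
  have hL' : ∀ j, (L j : ℝ) ≤ 2 * ((L j - N : ℕ) : ℝ) ∧ L j - N ≤ L j := by
    intro j
    refine ⟨?_, Nat.sub_le _ _⟩
    rw [hcast]
    linarith [hNL j]
  have key := h p rfl G a (fun j => M j + N) (fun j => L j - N) (by
    intro j
    rw [hcast]
    linarith [hNL j]) (by
    intro q hq hqp ρ t ht
    exact hexp _ _ hL' q hq (hqp.trans (le_of_eq (by congr 1; ring))) ρ t ht)
  have hsub : ((pts G a (fun j => Ioc (M j + N) (M j + N + ((L j - N : ℕ) : ℤ)))).filter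
        (fun x => GoodAP (subF r) p (κ * ff p) ((p : ℝ) ^ (δ / 4)) x)) ⊆
      ((pts G a (fun j => Ioc (M j) (M j + L j))).filter
        (fun x => Large p (κ * ff p * p) x)) := by
    intro x hx
    rw [mem_filter] at hx ⊢
    obtain ⟨hx1, hx2⟩ := hx
    unfold pts at hx1 ⊢
    rw [mem_filter, Fintype.mem_piFinset] at hx1 ⊢
    have hx3 : ∀ j, M j + N < x j ∧ x j ≤ M j + L j := by
      intro j
      have h3 := mem_Ioc.1 (hx1.1 j)
      refine ⟨h3.1, ?_⟩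
      have h4 := h3.2
      rw [Nat.cast_sub (hNLn j)] at h4
      linarith
    refine ⟨⟨fun j => mem_Ioc.2 ⟨?_, (hx3 j).2⟩, hx1.2⟩, ?_⟩
    · have := (hx3 j).1
      have hN0 : (0 : ℤ) ≤ N := Nat.cast_nonneg _
      linarith
    · apply large_of p hppos _ ((p : ℝ) ^ (δ / 4)) x _ (by linarith) hx2
      intro j
      constructor
      · have h3 : ((M j + N : ℤ) : ℝ) < x j := by exact_mod_cast (hx3 j).1
        push_cast at h3
        have h4 : (0 : ℝ) ≤ M j := by exact_mod_cast (hL j).1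
        linarith
      · refine le_trans ?_ (hL j).2.1
        exact mul_le_mul_of_nonneg_left (hx3 j).2 (by positivity)
  refine le_trans ?_ (key.trans (by exact_mod_cast card_le_card hsub))
  have hV : (∏ j, (L j : ℝ)) ≤ 2 ^ r * ∏ j, ((L j - N : ℕ) : ℝ) := by
    have h3 : (2 : ℝ) ^ r * ∏ j, ((L j - N : ℕ) : ℝ) = ∏ j, (2 * ((L j - N : ℕ) : ℝ)) := by
      rw [prod_mul_distrib, prod_const, card_univ, Fintype.card_fin]
    rw [h3]
    exact prod_le_prod (fun j _ => Nat.cast_nonneg _) fun j _ => (hL' j).1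
  have hV0 : 0 ≤ ∏ j, ((L j - N : ℕ) : ℝ) := prod_nonneg fun j _ => Nat.cast_nonneg _
  have h5 : ∀ η : ℝ, ∀ V : ℝ, V / (p : ℝ) ^ ((m : ℝ) + η) = (p : ℝ) ^ (-η) * (V / (p : ℝ) ^ m) := by
    intro η V
    rw [Real.rpow_add hp0, Real.rpow_natCast, Real.rpow_neg hp0.le]
    field_simp
  rw [h5, h5]
  calc (p : ℝ) ^ (-δ) * ((∏ j, (L j : ℝ)) / (p : ℝ) ^ m)
      ≤ (p : ℝ) ^ (-δ) * ((2 ^ r * ∏ j, ((L j - N : ℕ) : ℝ)) / (p : ℝ) ^ m) := by gcongr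
    _ = (2 ^ r * (p : ℝ) ^ (-δ)) * ((∏ j, ((L j - N : ℕ) : ℝ)) / (p : ℝ) ^ m) := by ring
    _ ≤ (p : ℝ) ^ (-(δ / 4)) * ((∏ j, ((L j - N : ℕ) : ℝ)) / (p : ℝ) ^ m) := by
        apply mul_le_mul_of_nonneg_right g2
        positivity

/-- the products of Weyl sums over progressions -/
theorem weyl_sums (m k : ℕ) (hm : 1 ≤ m) (δ : ℝ) (hδ : 0 < δ) (hδ1 : δ ≤ 1) :
    ∃ r₀ : ℕ, ∀ r : ℕ, r₀ ≤ r → ∀ᶠ P : ℝ in atTop, ∀ (p : ℕ) [Fact p.Prime], (p : ℝ) = P →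
    ∀ (g : Fin m → Fin r → (ZMod p)[X]) (M : Fin r → ℤ) (L : Fin r → ℕ),
    (∀ t : Fin m → ZMod p, t ≠ 0 → ∀ j, 1 ≤ (WP.comb g t j).natDegree ∧
      (WP.comb g t j).natDegree ≤ k ∧
      (p : ℝ) ^ (1 / ((WP.comb g t j).natDegree : ℝ) + δ) ≤ L j) →
    ∀ q : ℕ, 1 ≤ q → (q : ℝ) ≤ (p : ℝ) ^ (δ / 4) → ∀ ρ : Fin r → ℤ,
      ∀ t : Fin m → ZMod p, t ≠ 0 →
      ∏ j, ‖∑ x ∈ AP (M j) (L j) q (ρ j),
        (ZMod.stdAddChar ((WP.comb g t j).eval ((x : ℤ) : ZMod p)) : ℂ)‖ ≤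
      (∏ j, (L j : ℝ)) * (p : ℝ) ^ (-((m : ℝ) + δ)) := by
  obtain ⟨η, hη, hW⟩ := WP.weyl_AP k (δ / 2) (by positivity)
  obtain ⟨r₀, hr₀⟩ := exists_nat_ge ((m + 2) / η)
  refine ⟨r₀, fun r hr => ?_⟩
  have hrη : (m : ℝ) + 2 ≤ r * η := by
    have h1 : ((m : ℝ) + 2) / η ≤ r := hr₀.trans (by exact_mod_cast hr)
    rwa [div_le_iff₀ hη] at h1
  filter_upwards [hW, eventually_ge_atTop ((2 : ℝ) ^ r), eventually_gt_atTop (1 : ℝ),
    ev_pow 0 (δ / 4) 2 (by positivity)] with P g1 g2 g3 g4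
  intro p hp hpP g M L hdeg
  subst hpP
  have hp1 : (1 : ℝ) < p := g3
  have hp0 : (0 : ℝ) < p := by linarith
  rw [Real.rpow_zero, mul_one] at g4
  have hmono : ∀ x y : ℝ, x ≤ y → (p : ℝ) ^ x ≤ (p : ℝ) ^ y := fun x y h =>
    Real.rpow_le_rpow_of_exponent_le hp1.le h
  intro q hq hqp ρ t ht
  have hqR : (1 : ℝ) ≤ q := by exact_mod_cast hq
  have hq0 : (0 : ℝ) < q := by linarith
  have hqp' : q < p := by
    have : (q : ℝ) < p := lt_of_le_of_lt hqp (by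
      calc (p : ℝ) ^ (δ / 4) < (p : ℝ) ^ (1 : ℝ) :=
            Real.rpow_lt_rpow_of_exponent_lt hp1 (by linarith)
        _ = p := Real.rpow_one _)
    exact_mod_cast this
  have hB : ∀ j, ‖∑ x ∈ AP (M j) (L j) q (ρ j),
      (ZMod.stdAddChar ((WP.comb g t j).eval ((x : ℤ) : ZMod p)) : ℂ)‖ ≤
      2 * L j * (p : ℝ) ^ (-η) := by
    intro j
    obtain ⟨M', N, hN, hsum⟩ := WP.AP_sum (M j) (L j) q hq (ρ j)
    rw [hsum]
    obtain ⟨hd1, hdk, hL⟩ := hdeg t ht j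
    obtain ⟨e, he⟩ : ∃ e : ℝ, e = 1 / ((WP.comb g t j).natDegree : ℝ) := ⟨_, rfl⟩
    have he0 : 0 ≤ e := by rw [he]; positivity
    rw [← he] at hL
    have hN2 := abs_le.mp hN
    have h2 : (p : ℝ) ^ (e + δ / 2) ≤ N := by
      have h3 : (p : ℝ) ^ (e + δ / 2) * 2 ≤ (L j : ℝ) / q := by
        rw [le_div_iff₀ hq0]
        calc (p : ℝ) ^ (e + δ / 2) * 2 * q ≤
              (p : ℝ) ^ (e + δ / 2) * (p : ℝ) ^ (δ / 4) * (p : ℝ) ^ (δ / 4) := by gcongr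
          _ = (p : ℝ) ^ (e + δ) := by
              rw [← Real.rpow_add hp0, ← Real.rpow_add hp0]
              congr 1
              ring
          _ ≤ L j := hL
      have h4 : 1 ≤ (p : ℝ) ^ (e + δ / 2) := Real.one_le_rpow hp1.le (by positivity)
      linarith [hN2.1]
    have h1 := g1 p rfl (WP.comb g t j) hd1 hdk M' N q hq hqp' (by rw [← he]; exact h2)
    refine h1.trans ?_
    apply mul_le_mul_of_nonneg_right _ (by positivity)
    have hL1 : (1 : ℝ) ≤ L j := (Real.one_le_rpow hp1.le (by positivity)).trans hL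
    have h5 : (L j : ℝ) / q ≤ L j := div_le_self (by positivity) hqR
    linarith [hN2.2]
  refine (prod_le_prod (fun j _ => norm_nonneg _) (fun j _ => hB j)).trans ?_
  rw [prod_mul_distrib, prod_mul_distrib, prod_const, prod_const, card_univ, Fintype.card_fin]
  have hV0 : 0 ≤ ∏ j, (L j : ℝ) := prod_nonneg fun j _ => Nat.cast_nonneg _
  have h1 : ((p : ℝ) ^ (-η)) ^ r ≤ (p : ℝ) ^ (-((m : ℝ) + 2)) := by
    rw [← Real.rpow_natCast, ← Real.rpow_mul hp0.le]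
    apply hmono
    linarith
  calc (2 : ℝ) ^ r * (∏ j, (L j : ℝ)) * ((p : ℝ) ^ (-η)) ^ r
      ≤ p * (∏ j, (L j : ℝ)) * (p : ℝ) ^ (-((m : ℝ) + 2)) := by gcongr
    _ = (∏ j, (L j : ℝ)) * ((p : ℝ) ^ (1 : ℝ) * (p : ℝ) ^ (-((m : ℝ) + 2))) := by
        rw [Real.rpow_one]; ring
    _ = (∏ j, (L j : ℝ)) * (p : ℝ) ^ (-((m : ℝ) + 1)) := by
        rw [← Real.rpow_add hp0]
        congr 2
        ring
    _ ≤ (∏ j, (L j : ℝ)) * (p : ℝ) ^ (-((m : ℝ) + δ)) := by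
        apply mul_le_mul_of_nonneg_left _ hV0
        exact hmono _ _ (by linarith)

end Pool.Agent.U642.LP
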