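import Pool.Agent.U642.WP.Cnt
import Pool.Agent.U642.EW.Bal

set_option autoImplicit false

/-! # The criterion in arithmetic progressions, and families of linear forms -/

namespace Pool.Agent.U642.LP

open Finset Filter MvPolynomial
open Pool.Agent.W147.PS (ff)
open Pool.Agent.N542.PT (Crit WellDist Good Balanced)
open Pool.Agent.U642.WP (crit_cnt)
open Pool.Agent.U642.EW (balanced_of_sums sum_linear)

/-- all the integers `F j (x) + i q`, `|i| ≤ ρ`, have a prime factor `≤ y` -/
def GoodAP {ι : Type} {d : ℕ} (F : ι → MvPolynomial (Fin d) ℤ) (q : ℕ) (ρ y : ℝ)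
    (x : Fin d → ℤ) : Prop :=
  ∀ j, ∀ i : ℤ, |(i : ℝ)| ≤ ρ →
    ∃ l : ℕ, l.Prime ∧ (l : ℝ) ≤ y ∧ (l : ℤ) ∣ MvPolynomial.eval x (F j) + i * q

open scoped Classical in
/-- **The criterion in progressions**: a finite family of integer vectors which is equidistributed
in the residue classes of the moduli up to a small power of the prime `q` has many members `x` such
that all the integers `F j (x) + i q`, `|i| ≤ κ f(q)`, have a prime factor `≤ q ^ δ`. -/
theorem crit_ap {ι : Type} (r : ℕ) (F : ι → MvPolynomial (Fin r) ℤ) (hF : Crit r F)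
    (hlin : ∀ j, ∀ (u : ℤ) (x : Fin r → ℤ),
      MvPolynomial.eval (fun k => u * x k) (F j) = u * MvPolynomial.eval x (F j))
    (δ : ℝ) (hδ : 0 < δ) (hδ1 : δ < 1) :
    ∃ κ : ℝ, 0 < κ ∧ ∀ᶠ P : ℝ in atTop,
    ∀ (q : ℕ), q.Prime → (q : ℝ) = P → ∀ (s : Finset (Fin r → ℤ)),
    (∀ m : ℕ, 1 ≤ m → (m : ℝ) ≤ P ^ (δ / (4 * r + 4)) → ∀ ρ : Fin r → ℤ,
      |((s.filter (fun x => ∀ j, (m : ℤ) ∣ x j - ρ j)).card : ℝ) - s.card / (m : ℝ) ^ r| ≤
        s.card * P ^ (-δ)) →
    P ^ (-δ) * s.card ≤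
      ((s.filter (fun x => GoodAP F q (κ * ff P) (P ^ δ) x)).card : ℝ) := by
  obtain ⟨κ, hκ, h⟩ := crit_cnt r F hF δ hδ hδ1.le
  refine ⟨κ, hκ, ?_⟩
  filter_upwards [h, eventually_gt_atTop (1 : ℝ)] with P h g1
  intro q hq hqP s hs
  have hP0 : 0 < P := by linarith
  obtain ⟨K, hK⟩ : ∃ K : ℕ, K = ⌊P ^ δ⌋₊ := ⟨_, rfl⟩
  have hKP : (K : ℝ) ≤ P ^ δ := by
    rw [hK]
    exact Nat.floor_le (Real.rpow_nonneg hP0.le _)
  have hKq : K < q := by
    have h1 : P ^ δ < P := by
      calc P ^ δ < P ^ (1 : ℝ) := Real.rpow_lt_rpow_of_exponent_lt g1 hδ1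
        _ = P := Real.rpow_one _
    have h2 : (K : ℝ) < q := by rw [hqP]; linarith
    exact_mod_cast h2
  have hcop : IsCoprime (q : ℤ) ((K.factorial : ℕ) : ℤ) := by
    rw [Nat.isCoprime_iff_coprime]
    rw [hq.coprime_iff_not_dvd, hq.dvd_factorial]
    omega
  obtain ⟨u, v, huv⟩ := hcop
  -- `u q ≡ 1` modulo `K!`
  have hr0 : (0 : ℝ) ≤ r := Nat.cast_nonneg _
  have hdiv : ∀ m : ℕ, 1 ≤ m → (m : ℝ) ≤ P ^ δ → (m : ℤ) ∣ u * q - 1 := by
    intro m hm hmP
    have h1 : m ≤ K := by rw [hK]; exact Nat.le_floor hmP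
    have h2 : (m : ℤ) ∣ ((K.factorial : ℕ) : ℤ) := by
      exact_mod_cast Nat.dvd_factorial hm h1
    have e : u * q - 1 = -v * ((K.factorial : ℕ) : ℤ) := by linear_combination huv
    rw [e]
    exact h2.mul_left _
  have key := h (Fin r → ℤ) s (fun x k => u * x k) (by
    intro m hm hmP ρ
    have hmδ : (m : ℝ) ≤ P ^ δ := by
      refine hmP.trans (Real.rpow_le_rpow_of_exponent_le g1.le ?_)
      apply div_le_self hδ.le
      linarith
    have hd := hdiv m hm hmδ
    have e1 : s.filter (fun x => ∀ j, (m : ℤ) ∣ u * x j - ρ j) =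
        s.filter (fun x => ∀ j, (m : ℤ) ∣ x j - (q : ℤ) * ρ j) := by
      apply filter_congr
      intro x _
      refine forall_congr' fun j => ?_
      constructor
      · intro h1
        have h2 : (m : ℤ) ∣ (q : ℤ) * (u * x j - ρ j) - (u * q - 1) * x j :=
          dvd_sub (h1.mul_left _) (hd.mul_right _)
        have e : (q : ℤ) * (u * x j - ρ j) - (u * q - 1) * x j = x j - (q : ℤ) * ρ j := by ring
        rwa [e] at h2
      · intro h1
        have h2 : (m : ℤ) ∣ u * (x j - (q : ℤ) * ρ j) + (u * q - 1) * ρ j :=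
          dvd_add (h1.mul_left _) (hd.mul_right _)
        have e : u * (x j - (q : ℤ) * ρ j) + (u * q - 1) * ρ j = u * x j - ρ j := by ring
        rwa [e] at h2
    rw [e1]
    exact hs m hm hmP (fun j => (q : ℤ) * ρ j))
  refine key.trans ?_
  rw [Nat.cast_le]
  apply card_le_card
  intro x hx
  rw [mem_filter] at hx ⊢
  refine ⟨hx.1, fun j i hi => ?_⟩
  obtain ⟨l, hl, hl1, hl2⟩ := hx.2 j (u * MvPolynomial.eval x (F j) + i) (by
    rw [hlin]
    push_cast
    rw [add_sub_cancel_left]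
    exact hi)
  refine ⟨l, hl, hl1, ?_⟩
  have hd := hdiv l hl.one_lt.le hl1
  have h2 : (l : ℤ) ∣ (q : ℤ) * (u * MvPolynomial.eval x (F j) + i) -
      (u * q - 1) * MvPolynomial.eval x (F j) := dvd_sub (hl2.mul_left _) (hd.mul_right _)
  have e : (q : ℤ) * (u * MvPolynomial.eval x (F j) + i) -
      (u * q - 1) * MvPolynomial.eval x (F j) = MvPolynomial.eval x (F j) + i * q := by ring
  rwa [e] at h2

/-- the sums over the nonempty sets of variables -/
noncomputable def subF (r : ℕ) (S : {S : Finset (Fin r) // S.Nonempty}) : MvPolynomial (Fin r) ℤ :=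
  ∑ j ∈ S.1, X j

lemma subF_eval {r : ℕ} (S : {S : Finset (Fin r) // S.Nonempty}) (x : Fin r → ℤ) :
    eval x (subF r S) = ∑ j ∈ S.1, x j := by
  unfold subF
  rw [map_sum]
  exact sum_congr rfl fun j _ => eval_X j

lemma subF_aeval {r p : ℕ} (S : {S : Finset (Fin r) // S.Nonempty}) (x : Fin r → ZMod p) :
    aeval x (subF r S) = ∑ j, (if j ∈ S.1 then 1 else 0) * x j := by
  unfold subF
  rw [map_sum]
  simp only [aeval_X, ite_mul, one_mul, zero_mul]
  rw [sum_ite_mem, univ_inter]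

theorem subF_balanced (r : ℕ) : Balanced (subF r) (fun _ => ∅) ∧
    ∀ j, ∀ k : ℤ, subF r j ≠ MvPolynomial.C k := by
  refine balanced_of_sums (subF r) 0 1 zero_le_one ?_ ?_
  · intro p _ _ S t ht
    have h1 : ∀ x : Fin r → ZMod p, t * aeval x (subF r S) =
        ∑ j, (t * (if j ∈ S.1 then 1 else 0)) * x j + 0 := by
      intro x
      rw [subF_aeval, mul_sum, add_zero]
      exact sum_congr rfl fun j _ => by ring
    have h2 : ∑ x : Fin r → ZMod p, (ZMod.stdAddChar (t * aeval x (subF r S)) : ℂ) = 0 := by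
      rw [sum_congr rfl fun x _ => by rw [h1 x]]
      apply sum_linear
      intro h0
      obtain ⟨j, hj⟩ := S.2
      have := congrFun h0 j
      rw [if_pos hj, mul_one] at this
      exact ht this
    rw [h2, norm_zero, zero_mul]
    positivity
  · intro p _ _ S T hST t t' htt
    have h1 : ∀ x : Fin r → ZMod p, t * aeval x (subF r S) + t' * aeval x (subF r T) =
        ∑ j, (t * (if j ∈ S.1 then 1 else 0) + t' * (if j ∈ T.1 then 1 else 0)) * x j + 0 := by
      intro x
      rw [subF_aeval, subF_aeval, mul_sum, mul_sum, add_zero, ← sum_add_distrib]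
      exact sum_congr rfl fun j _ => by ring
    have h2 : ∑ x : Fin r → ZMod p,
        (ZMod.stdAddChar (t * aeval x (subF r S) + t' * aeval x (subF r T)) : ℂ) = 0 := by
      rw [sum_congr rfl fun x _ => by rw [h1 x]]
      apply sum_linear
      intro h0
      have h3 : ∀ j, t * (if j ∈ S.1 then 1 else 0) + t' * (if j ∈ T.1 then 1 else 0) = 0 :=
        fun j => congrFun h0 j
      have hne : S.1 ≠ T.1 := fun h => hST (Subtype.ext h)
      have hor : (∃ j, j ∈ S.1 ∧ j ∉ T.1) ∨ ∃ j, j ∈ T.1 ∧ j ∉ S.1 := by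
        by_contra hcon
        push Not at hcon
        exact hne (Finset.Subset.antisymm (fun j hj => hcon.1 j hj) (fun j hj => hcon.2 j hj))
      rcases hor with ⟨j, hj1, hj2⟩ | ⟨j, hj1, hj2⟩
      · have h4 := h3 j
        rw [if_pos hj1, if_neg hj2, mul_one, mul_zero, add_zero] at h4
        obtain ⟨k, hk⟩ := T.2
        have h5 := h3 k
        rw [h4, if_pos hk, zero_mul, zero_add, mul_one] at h5
        rcases htt with h | h
        · exact h h4
        · exact h h5
      · have h4 := h3 j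
        rw [if_pos hj1, if_neg hj2, mul_one, mul_zero, zero_add] at h4
        obtain ⟨k, hk⟩ := S.2
        have h5 := h3 k
        rw [h4, if_pos hk, zero_mul, add_zero, mul_one] at h5
        rcases htt with h | h
        · exact h h5
        · exact h h4
    rw [h2, norm_zero, zero_mul]
    positivity

end Pool.Agent.U642.LP
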