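import Pool.Agent.U642.QS.Gen
import Pool.Agent.U642.LP.Crit

set_option autoImplicit false

/-! # Equidistribution of the points of a fibre in residue classes, and sums over progressions -/

namespace Pool.Agent.U642.LP

open Finset Filter Polynomial
open Pool.Agent.N647.FG (AP AP_one AP_card AP_eq AP_ends F W W_AP W_nonneg)
open Pool.Agent.W147.PS (ff ev_pow)
open Pool.Agent.N542.PT (Crit WellDist Good)
open Pool.Agent.U642.WP (crit_cnt prod_pert comb)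
open Pool.Agent.U642.QS (pts pts_count glue box_sum psi_sum')

open scoped Classical in
/-- **The points of a fibre in a box are equidistributed in residue classes**, if the exponential
sums over progressions are small. -/
theorem gen_eq (r m : ℕ) (δ : ℝ) (hδ : 0 < δ) :
    ∀ᶠ P : ℝ in atTop, ∀ (p : ℕ) [Fact p.Prime], (p : ℝ) = P →
    ∀ (G : (Fin r → ZMod p) → Fin m → ZMod p) (a : Fin m → ZMod p) (M : Fin r → ℤ)
      (L : Fin r → ℕ),
    (∀ j, (p : ℝ) ^ δ ≤ L j) →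
    (∀ q : ℕ, 1 ≤ q → (q : ℝ) ≤ (p : ℝ) ^ (δ / 4) → ∀ ρ : Fin r → ℤ, ∀ t : Fin m → ZMod p, t ≠ 0 →
      ‖∑ x ∈ Fintype.piFinset (fun j => AP (M j) (L j) q (ρ j)),
        (ZMod.stdAddChar (∑ i, t i * G (fun j => ((x j : ℤ) : ZMod p)) i) : ℂ)‖ ≤
      (∏ j, (L j : ℝ)) * (p : ℝ) ^ (-((m : ℝ) + δ))) →
    ∀ s : Finset (Fin r → ℤ), s = pts G a (fun j => Ioc (M j) (M j + L j)) →
    (∏ j, (L j : ℝ)) / (p : ℝ) ^ m / 2 ≤ (s.card : ℝ) ∧
    ∀ q : ℕ, 1 ≤ q → (q : ℝ) ≤ (p : ℝ) ^ ((δ / 4) / (4 * r + 4)) → ∀ ρ : Fin r → ℤ,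
      |((s.filter (fun x => ∀ j, (q : ℤ) ∣ x j - ρ j)).card : ℝ) - s.card / (q : ℝ) ^ r| ≤
        s.card * (p : ℝ) ^ (-(δ / 4)) := by
  obtain ⟨δ₂, hδ₂⟩ : ∃ δ₂ : ℝ, δ₂ = δ / 4 := ⟨_, rfl⟩
  have hδ₂0 : 0 < δ₂ := by rw [hδ₂]; positivity
  rw [← hδ₂]
  obtain ⟨θ, hθ⟩ : ∃ θ : ℝ, θ = δ₂ / (4 * r + 4) := ⟨_, rfl⟩
  have hr0 : (0 : ℝ) ≤ r := Nat.cast_nonneg _
  have hθ0 : 0 < θ := by rw [hθ]; positivity
  have hθe : θ * (4 * r + 4) = δ₂ := by rw [hθ]; field_simp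
  have hθ1 : θ ≤ δ₂ / 4 := by nlinarith
  rw [← hθ]
  filter_upwards [ev_pow (θ - δ) (-δ₂) (8 * 2 ^ r) (by linarith),
    ev_pow (-δ) (-δ₂) 8 (by linarith), ev_pow δ₂ δ 2 (by linarith),
    ev_pow (θ - δ) 0 1 (by linarith), eventually_gt_atTop (1 : ℝ)] with P g3 g4 g5 g6 g7
  intro p hp hpP G a M L hL hexp s hs
  subst hpP
  have hp' : p.Prime := Fact.out
  have hp1 : (1 : ℝ) < p := g7
  have hp0 : (0 : ℝ) < p := by linarith
  have hmono : ∀ x y : ℝ, x ≤ y → (p : ℝ) ^ x ≤ (p : ℝ) ^ y := fun x y h =>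
    Real.rpow_le_rpow_of_exponent_le hp1.le h
  have hL0 : ∀ j, (0 : ℝ) < L j := fun j => (Real.rpow_pos_of_pos hp0 _).trans_le (hL j)
  obtain ⟨V, hV⟩ : ∃ V : ℝ, V = ∏ j, (L j : ℝ) := ⟨_, rfl⟩
  have hV0 : 0 < V := by rw [hV]; exact prod_pos fun j _ => hL0 j
  have hpm : (0 : ℝ) < (p : ℝ) ^ m := by positivity
  obtain ⟨A, hA⟩ : ∃ A : ℝ, A = V / (p : ℝ) ^ m := ⟨_, rfl⟩
  have hA0 : 0 < A := by rw [hA]; positivity
  have hpδ₂ : 0 < (p : ℝ) ^ (-δ₂) := Real.rpow_pos_of_pos hp0 _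
  have hsmall : (p : ℝ) ^ (-δ₂) ≤ 1 :=
    Real.rpow_le_one_of_one_le_of_nonpos hp1.le (by linarith)
  have hEA : V * (p : ℝ) ^ (-((m : ℝ) + δ)) = A * (p : ℝ) ^ (-δ) := by
    rw [hA, neg_add, Real.rpow_add hp0, Real.rpow_neg hp0.le, Real.rpow_natCast]
    field_simp
  rw [← hV] at hexp ⊢
  -- the count in progressions
  have key : ∀ q : ℕ, 1 ≤ q → (q : ℝ) ≤ (p : ℝ) ^ θ → ∀ ρ : Fin r → ℤ,
      |((pts G a (fun j => AP (M j) (L j) q (ρ j))).card : ℝ) - A / (q : ℝ) ^ r| ≤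
        A * ((p : ℝ) ^ (-δ₂) / 4) := by
    intro q hq hqp ρ
    have hqR : (1 : ℝ) ≤ q := by exact_mod_cast hq
    have hq0 : (0 : ℝ) < q := by linarith
    have h1 := pts_count G a (fun j => AP (M j) (L j) q (ρ j)) (V * (p : ℝ) ^ (-((m : ℝ) + δ)))
      (by positivity) (hexp q hq (hqp.trans (hmono _ _ (by linarith))) ρ)
    obtain ⟨η, hη⟩ : ∃ η : ℝ, η = (p : ℝ) ^ (θ - δ) := ⟨_, rfl⟩
    have hη0 : 0 ≤ η := by rw [hη]; positivity
    have hη1 : η ≤ 1 := by rw [hη]; simpa using g6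
    have h2 := prod_pert univ
      (fun j => ((AP (M j) (L j) q (ρ j)).card : ℝ))
      (fun j => (L j : ℝ) / q) η hη0 hη1 (fun j _ => by positivity) (fun j _ => by
        refine (AP_card (M j) (L j) q hq (ρ j)).trans ?_
        rw [hη, mul_div_assoc', one_le_div hq0]
        calc (q : ℝ) ≤ (p : ℝ) ^ θ := hqp
          _ = (p : ℝ) ^ (θ - δ) * (p : ℝ) ^ δ := by
              rw [← Real.rpow_add hp0]; congr 1; ring
          _ ≤ (p : ℝ) ^ (θ - δ) * L j := by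
              apply mul_le_mul_of_nonneg_left (hL j) (by positivity))
    rw [card_univ, Fintype.card_fin] at h2
    have e1 : ∏ j, ((L j : ℝ) / q) = V / (q : ℝ) ^ r := by
      rw [prod_div_distrib, prod_const, card_univ, Fintype.card_fin, hV]
    rw [e1] at h2
    obtain ⟨U, hU⟩ : ∃ U : ℝ, U = ∏ j, ((AP (M j) (L j) q (ρ j)).card : ℝ) := ⟨_, rfl⟩
    rw [← hU] at h1 h2
    have hqr1 : (1 : ℝ) ≤ (q : ℝ) ^ r := one_le_pow₀ hqR
    have h3 : |U / (p : ℝ) ^ m - A / (q : ℝ) ^ r| ≤ A * ((p : ℝ) ^ (-δ₂) / 8) := by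
      have e3 : U / (p : ℝ) ^ m - A / (q : ℝ) ^ r = (U - V / (q : ℝ) ^ r) / (p : ℝ) ^ m := by
        rw [hA]; field_simp
      rw [e3, abs_div, abs_of_pos hpm]
      have h4 : |U - V / (q : ℝ) ^ r| ≤ 2 ^ r * η * V := by
        refine h2.trans ?_
        apply mul_le_mul _ (div_le_self hV0.le hqr1) (by positivity) (by positivity)
        apply mul_le_mul_of_nonneg_right _ hη0
        linarith
      have h5 : |U - V / (q : ℝ) ^ r| / (p : ℝ) ^ m ≤ (2 ^ r * η * V) / (p : ℝ) ^ m := by gcongr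
      refine h5.trans ?_
      have h6 : (2 ^ r * η * V) / (p : ℝ) ^ m = A * (2 ^ r * η) := by rw [hA]; ring
      rw [h6]
      apply mul_le_mul_of_nonneg_left _ hA0.le
      rw [hη]
      linarith
    have h4 : V * (p : ℝ) ^ (-((m : ℝ) + δ)) ≤ A * ((p : ℝ) ^ (-δ₂) / 8) := by
      rw [hEA]
      apply mul_le_mul_of_nonneg_left _ hA0.le
      linarith
    have h6 := abs_add_le (((pts G a (fun j => AP (M j) (L j) q (ρ j))).card : ℝ) - U / (p : ℝ) ^ m)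
        (U / (p : ℝ) ^ m - A / (q : ℝ) ^ r)
    rw [sub_add_sub_cancel] at h6
    linarith
  have k1 := key 1 le_rfl (by simpa using Real.one_le_rpow hp1.le hθ0.le) (fun _ => 0)
  have e0 : (fun j => AP (M j) (L j) 1 ((fun _ => 0 : Fin r → ℤ) j)) =
      fun j => Ioc (M j) (M j + L j) := by
    funext j
    exact AP_one _ _ _
  rw [e0, ← hs, Nat.cast_one, one_pow, div_one] at k1
  have hscard : A / 2 ≤ (s.card : ℝ) := by
    have h1 := (abs_le.mp k1).1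
    have h2 : A * ((p : ℝ) ^ (-δ₂) / 4) ≤ A * (1 / 4) := by gcongr
    linarith
  refine ⟨by rw [hA] at hscard; exact hscard, ?_⟩
  intro q hq hqp ρ
  have hqR : (1 : ℝ) ≤ (q : ℝ) ^ r := one_le_pow₀ (by exact_mod_cast hq)
  have k2 := key q hq hqp ρ
  have e1 : s.filter (fun i => ∀ j, (q : ℤ) ∣ i j - ρ j) =
      pts G a (fun j => AP (M j) (L j) q (ρ j)) := by
    ext x
    rw [hs]
    unfold pts AP
    simp only [mem_filter, Fintype.mem_piFinset]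
    constructor
    · rintro ⟨⟨h1, h2⟩, h3⟩
      exact ⟨fun j => ⟨h1 j, h3 j⟩, h2⟩
    · rintro ⟨h1, h2⟩
      exact ⟨⟨fun j => (h1 j).1, h2⟩, fun j => (h1 j).2⟩
  rw [e1]
  have k3 : |A / (q : ℝ) ^ r - s.card / (q : ℝ) ^ r| ≤ A * ((p : ℝ) ^ (-δ₂) / 4) := by
    rw [← sub_div, abs_div, abs_of_pos (show (0 : ℝ) < (q : ℝ) ^ r by linarith), abs_sub_comm]
    exact (div_le_self (abs_nonneg _) hqR).trans k1
  have k4 := abs_add_le (((pts G a (fun j => AP (M j) (L j) q (ρ j))).card : ℝ) - A / (q : ℝ) ^ r)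
    (A / (q : ℝ) ^ r - s.card / (q : ℝ) ^ r)
  rw [sub_add_sub_cancel] at k4
  have k5 : A / 2 * (p : ℝ) ^ (-δ₂) ≤ s.card * (p : ℝ) ^ (-δ₂) :=
    mul_le_mul_of_nonneg_right hscard hpδ₂.le
  linarith

/-- the sums over progressions after a completion in some of the variables -/
theorem compl_AP (r m : ℕ) (δ : ℝ) (hδ : 0 < δ) (hδ1 : δ ≤ 1) :
    ∀ᶠ P : ℝ in atTop, ∀ (p : ℕ) [Fact p.Prime], (p : ℝ) = P →
    ∀ (G : (Fin r → ZMod p) → Fin m → ZMod p) (M : Fin r → ℤ) (L : Fin r → ℕ),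
    (∀ j, (p : ℝ) ^ δ ≤ L j ∧ L j ≤ p) →
    (∀ t : Fin m → ZMod p, t ≠ 0 → ∃ J : Finset (Fin r),
      ∀ (c : {j // ¬ j ∈ J} → ZMod p) (h : {j // j ∈ J} → ZMod p),
      ‖∑ u : {j // j ∈ J} → ZMod p, (ZMod.stdAddChar (∑ i, t i * G (glue J u c) i) : ℂ) *
        (ZMod.stdAddChar (∑ j, h j * u j) : ℂ)‖ ≤ (∏ j ∈ J, (L j : ℝ)) * (p : ℝ) ^ (-((m : ℝ) + δ))) →
    ∀ q : ℕ, 1 ≤ q → (q : ℝ) ≤ (p : ℝ) ^ (δ / 2 / 4) → ∀ ρ : Fin r → ℤ,
      ∀ t : Fin m → ZMod p, t ≠ 0 →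
      ‖∑ x ∈ Fintype.piFinset (fun j => AP (M j) (L j) q (ρ j)),
        (ZMod.stdAddChar (∑ i, t i * G (fun j => ((x j : ℤ) : ZMod p)) i) : ℂ)‖ ≤
      (∏ j, (L j : ℝ)) * (p : ℝ) ^ (-((m : ℝ) + δ / 2)) := by
  have e1 : ∀ᶠ x : ℝ in atTop, (2 * (Real.log x + 3)) ^ r ≤ x ^ (δ / 2) := by
    have h1 : (fun x : ℝ => (2 * (Real.log x + 3)) ^ r) =o[atTop] fun x : ℝ => x ^ (δ / 2) := by
      have h2 : (fun x : ℝ => (2 * (Real.log x + 3))) =O[atTop] Real.log :=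
        ((Asymptotics.isBigO_refl _ _).add (Real.isLittleO_const_log_atTop (c := 3)).isBigO).const_mul_left 2
      have h4 : (fun x : ℝ => Real.log x ^ r) =o[atTop] fun x : ℝ => x ^ (δ / 2) := by
        have h5 := isLittleO_log_rpow_rpow_atTop (s := δ / 2) (r : ℝ) (by positivity)
        refine h5.congr' ?_ (Filter.EventuallyEq.refl _ _)
        filter_upwards with x
        rw [Real.rpow_natCast]
      exact (h2.pow r).trans_isLittleO h4
    have h2 := h1.def (show (0 : ℝ) < 1 by norm_num)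
    filter_upwards [h2, eventually_gt_atTop (1 : ℝ)] with x hx hx1
    have h3 : 0 ≤ Real.log x := Real.log_nonneg hx1.le
    rw [Real.norm_of_nonneg (by positivity), Real.norm_of_nonneg (by positivity), one_mul] at hx
    exact hx
  filter_upwards [e1, eventually_gt_atTop (1 : ℝ)] with P g1 g2
  intro p hp hpP G M L hL hexp
  subst hpP
  have hp1 : (1 : ℝ) < p := g2
  have hp0 : (0 : ℝ) < p := by linarith
  have hmono : ∀ x y : ℝ, x ≤ y → (p : ℝ) ^ x ≤ (p : ℝ) ^ y := fun x y h =>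
    Real.rpow_le_rpow_of_exponent_le hp1.le h
  have hlog : 0 ≤ Real.log p := Real.log_nonneg hp1.le
  have hL1 : ∀ j, (1 : ℝ) ≤ L j := fun j => (Real.one_le_rpow hp1.le hδ.le).trans (hL j).1
  intro q hq hqp ρ t ht
  have hqp' : q < p := by
    have : (q : ℝ) < p := lt_of_le_of_lt hqp (by
      calc (p : ℝ) ^ (δ / 2 / 4) < (p : ℝ) ^ (1 : ℝ) :=
            Real.rpow_lt_rpow_of_exponent_lt hp1 (by linarith)
        _ = p := Real.rpow_one _)
    exact_mod_cast this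
  have hqR : (1 : ℝ) ≤ q := by exact_mod_cast hq
  obtain ⟨J, hJ⟩ := hexp t ht
  have h1 := box_sum J (fun j => AP (M j) (L j) q (ρ j))
    (fun x => (ZMod.stdAddChar (∑ i, t i * G x i) : ℂ)) _ hJ
  refine h1.trans ?_
  have h2 : ∏ j ∈ J, W p (AP (M j) (L j) q (ρ j)) ≤ (2 * (Real.log p + 3)) ^ J.card := by
    rw [← prod_const]
    refine prod_le_prod (fun j _ => W_nonneg _) fun j _ => ?_
    have := W_AP (M j) (L j) q hq hqp' (hL j).2 (ρ j)
    linarith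
  have h3 : ∏ j ∈ univ \ J, ((AP (M j) (L j) q (ρ j)).card : ℝ) ≤
      (2 * (Real.log p + 3)) ^ (univ \ J).card * ∏ j ∈ univ \ J, (L j : ℝ) := by
    rw [← prod_const, ← prod_mul_distrib]
    refine prod_le_prod (fun j _ => Nat.cast_nonneg _) fun j _ => ?_
    have h4 := (abs_le.mp (AP_card (M j) (L j) q hq (ρ j))).2
    have h5 : (L j : ℝ) / q ≤ L j := div_le_self (Nat.cast_nonneg _) hqR
    have h6 := hL1 j
    nlinarith
  have h7 : J.card + (univ \ J).card = r := by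
    rw [add_comm, card_sdiff_add_card_eq_card (subset_univ J), card_univ, Fintype.card_fin]
  have hLJ : 0 ≤ ∏ j ∈ J, (L j : ℝ) := prod_nonneg fun j _ => Nat.cast_nonneg _
  have hLJ' : 0 ≤ ∏ j ∈ univ \ J, (L j : ℝ) := prod_nonneg fun j _ => Nat.cast_nonneg _
  have hpp : 0 ≤ (p : ℝ) ^ (-((m : ℝ) + δ)) := by positivity
  have h8 : (∏ j ∈ univ \ J, (L j : ℝ)) * ∏ j ∈ J, (L j : ℝ) = ∏ j, (L j : ℝ) :=
    prod_sdiff (subset_univ J)
  calc (∏ j ∈ J, (L j : ℝ)) * (p : ℝ) ^ (-((m : ℝ) + δ)) *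
        (∏ j ∈ J, W p (AP (M j) (L j) q (ρ j))) *
        ∏ j ∈ univ \ J, ((AP (M j) (L j) q (ρ j)).card : ℝ)
      ≤ (∏ j ∈ J, (L j : ℝ)) * (p : ℝ) ^ (-((m : ℝ) + δ)) *
        (2 * (Real.log p + 3)) ^ J.card *
        ((2 * (Real.log p + 3)) ^ (univ \ J).card * ∏ j ∈ univ \ J, (L j : ℝ)) := by
        apply mul_le_mul _ h3 (prod_nonneg fun j _ => Nat.cast_nonneg _) (by positivity)
        exact mul_le_mul_of_nonneg_left h2 (by positivity)
    _ = (∏ j, (L j : ℝ)) * (p : ℝ) ^ (-((m : ℝ) + δ)) * (2 * (Real.log p + 3)) ^ r := by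
        have h9 : (2 * (Real.log (p : ℝ) + 3)) ^ r =
            (2 * (Real.log (p : ℝ) + 3)) ^ J.card * (2 * (Real.log (p : ℝ) + 3)) ^ (univ \ J).card := by
          rw [← pow_add, h7]
        rw [h9, ← h8]
        ring
    _ ≤ (∏ j, (L j : ℝ)) * (p : ℝ) ^ (-((m : ℝ) + δ)) * (p : ℝ) ^ (δ / 2) := by
        apply mul_le_mul_of_nonneg_left g1
        rw [← h8]
        positivity
    _ = (∏ j, (L j : ℝ)) * (p : ℝ) ^ (-((m : ℝ) + δ / 2)) := by
        rw [mul_assoc, ← Real.rpow_add hp0]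
        congr 2
        ring

/-- the sums over progressions of separated polynomials -/
lemma sep_AP {p : ℕ} [Fact p.Prime] {r m : ℕ} (g : Fin m → Fin r → (ZMod p)[X])
    (A : Fin r → Finset ℤ) (t : Fin m → ZMod p) :
    ‖∑ x ∈ Fintype.piFinset A, (ZMod.stdAddChar
        (∑ i, t i * ∑ j, (g i j).eval ((x j : ℤ) : ZMod p)) : ℂ)‖ =
      ∏ j, ‖∑ x ∈ A j, (ZMod.stdAddChar ((comb g t j).eval ((x : ℤ) : ZMod p)) : ℂ)‖ := by
  rw [← norm_prod, Finset.prod_univ_sum]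
  congr 1
  refine sum_congr rfl fun x _ => ?_
  rw [← psi_sum']
  congr 1
  have e3 : ∀ j, (comb g t j).eval ((x j : ℤ) : ZMod p) =
      ∑ i, t i * (g i j).eval ((x j : ℤ) : ZMod p) := by
    intro j
    unfold comb
    rw [eval_finsetSum]
    refine sum_congr rfl fun i _ => ?_
    rw [eval_mul, eval_C]
  rw [sum_congr rfl fun j _ => e3 j, sum_comm]
  refine sum_congr rfl fun i _ => ?_
  rw [mul_sum]

end Pool.Agent.U642.LP
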