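import Pool.Agent.U642.LP.Box
import Pool.Agent.U642.QS.Quad
import Pool.Agent.U642.QS.Diag

set_option autoImplicit false

/-! # The completed version, and systems of quadratic equations -/

namespace Pool.Agent.U642.LP

open Finset Filter Matrix
open Pool.Agent.N647.FG (AP)
open Pool.Agent.W147.PS (ff ev_pow)
open Pool.Agent.U642.QS (pts glue quad_sum exists_minor)

open scoped Classical in
/-- **boxes in `[0, p / r]`**, completion in some of the variables -/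
theorem ap_main (r m : ℕ) (δ : ℝ) (hδ : 0 < δ) (hδ1 : δ ≤ 1) :
    ∃ κ : ℝ, 0 < κ ∧ ∀ᶠ P : ℝ in atTop, ∀ (p : ℕ) [Fact p.Prime], (p : ℝ) = P →
    ∀ (G : (Fin r → ZMod p) → Fin m → ZMod p) (a : Fin m → ZMod p) (M : Fin r → ℤ)
      (L : Fin r → ℕ),
    (∀ j, 0 ≤ M j ∧ r * (M j + L j) ≤ p ∧ (p : ℝ) ^ δ ≤ L j) →
    (∀ t : Fin m → ZMod p, t ≠ 0 → ∃ J : Finset (Fin r),
      ∀ (c : {j // ¬ j ∈ J} → ZMod p) (h : {j // j ∈ J} → ZMod p),
      ‖∑ u : {j // j ∈ J} → ZMod p, (ZMod.stdAddChar (∑ i, t i * G (glue J u c) i) : ℂ) *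
        (ZMod.stdAddChar (∑ j, h j * u j) : ℂ)‖ ≤ (∏ j ∈ J, (L j : ℝ)) * (p : ℝ) ^ (-((m : ℝ) + δ))) →
    (∏ j, (L j : ℝ)) / (p : ℝ) ^ ((m : ℝ) + δ) ≤
      (((pts G a (fun j => Ioc (M j) (M j + L j))).filter
        (fun x => Large p (κ * ff p * p) x)).card : ℝ) := by
  obtain ⟨κ, hκ, h⟩ := ap_box r m δ hδ hδ1
  refine ⟨κ, hκ, ?_⟩
  filter_upwards [h, compl_AP r m (δ / 2) (by positivity) (by linarith),
    ev_pow (δ / 2) δ 2 (by linarith), ev_pow (-δ) (-(δ / 2)) (2 ^ r) (by linarith),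
    eventually_gt_atTop (1 : ℝ)] with P g1 g2 g3 g4 g5
  intro p hp hpP G a M L hL hexp
  subst hpP
  have hp1 : (1 : ℝ) < p := g5
  have hp0 : (0 : ℝ) < p := by linarith
  refine g1 p rfl G a M L hL ?_
  intro M' L' hL' q hq hqp ρ t ht
  have hLp : ∀ j, L j ≤ p := by
    intro j
    obtain ⟨h1, h2, _⟩ := hL j
    have h3 : (1 : ℤ) ≤ r := by
      have := j.2
      omega
    have h4 : (L j : ℤ) ≤ r * (M j + L j) := by nlinarith
    exact_mod_cast h4.trans h2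
  refine (g2 p rfl G M' L' (fun j => ⟨?_, (hL' j).2.trans (hLp j)⟩) ?_ q hq
    (hqp.trans (le_of_eq (by congr 1; ring))) ρ t ht).trans (le_of_eq ?_)
  · have h1 := (hL j).2.2
    have h2 := (hL' j).1
    linarith
  · intro t ht
    obtain ⟨J, hJ⟩ := hexp t ht
    refine ⟨J, fun c h => (hJ c h).trans ?_⟩
    have h1 : (∏ j ∈ J, (L j : ℝ)) ≤ 2 ^ r * ∏ j ∈ J, (L' j : ℝ) := by
      calc (∏ j ∈ J, (L j : ℝ)) ≤ ∏ j ∈ J, (2 * (L' j : ℝ)) :=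
            prod_le_prod (fun j _ => Nat.cast_nonneg _) fun j _ => (hL' j).1
        _ = 2 ^ J.card * ∏ j ∈ J, (L' j : ℝ) := by rw [prod_mul_distrib, prod_const]
        _ ≤ 2 ^ r * ∏ j ∈ J, (L' j : ℝ) := by
            apply mul_le_mul_of_nonneg_right _ (prod_nonneg fun j _ => Nat.cast_nonneg _)
            apply pow_le_pow_right₀ (by norm_num)
            have := card_le_univ J
            rwa [Fintype.card_fin] at this
    have h0 : 0 ≤ ∏ j ∈ J, (L' j : ℝ) := prod_nonneg fun j _ => Nat.cast_nonneg _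
    have e : ∀ η : ℝ, (p : ℝ) ^ (-((m : ℝ) + η)) = (p : ℝ) ^ (-(m : ℝ)) * (p : ℝ) ^ (-η) := by
      intro η
      rw [← Real.rpow_add hp0]
      congr 1
      ring
    rw [e, e]
    calc (∏ j ∈ J, (L j : ℝ)) * ((p : ℝ) ^ (-(m : ℝ)) * (p : ℝ) ^ (-δ))
        ≤ (2 ^ r * ∏ j ∈ J, (L' j : ℝ)) * ((p : ℝ) ^ (-(m : ℝ)) * (p : ℝ) ^ (-δ)) := by
          apply mul_le_mul_of_nonneg_right h1 (by positivity)
      _ = (∏ j ∈ J, (L' j : ℝ)) * ((p : ℝ) ^ (-(m : ℝ)) * (2 ^ r * (p : ℝ) ^ (-δ))) := by ring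
      _ ≤ _ := by
          apply mul_le_mul_of_nonneg_left _ h0
          apply mul_le_mul_of_nonneg_left g4 (by positivity)
  · congr 2
    ring

open scoped Classical in
/-- **systems of quadratic equations modulo `p`** -/
theorem quad_ap (r m : ℕ) (δ : ℝ) (hδ : 0 < δ) (hδ1 : δ ≤ 1) :
    ∃ κ : ℝ, 0 < κ ∧ ∀ᶠ P : ℝ in atTop, ∀ (p : ℕ) [Fact p.Prime], (p : ℝ) = P →
    ∀ (ρ : ℕ) (Q : Fin m → Matrix (Fin r) (Fin r) (ZMod p)) (b : Fin m → Fin r → ZMod p)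
      (a : Fin m → ZMod p) (M : Fin r → ℤ) (L : Fin r → ℕ),
    (∀ t : Fin m → ZMod p, t ≠ 0 → ρ ≤ (∑ i, t i • (Q i + (Q i)ᵀ)).rank) →
    (∀ j, 0 ≤ M j ∧ r * (M j + L j) ≤ p ∧ (p : ℝ) ^ δ ≤ L j) →
    (∀ J : Finset (Fin r), ρ ≤ J.card → (p : ℝ) ^ ((J.card : ℝ) / 2 + m + δ) ≤ ∏ j ∈ J, (L j : ℝ)) →
    (∏ j, (L j : ℝ)) / (p : ℝ) ^ ((m : ℝ) + δ) ≤
      (((pts (fun x i => x ⬝ᵥ Q i *ᵥ x + b i ⬝ᵥ x) a (fun j => Ioc (M j) (M j + L j))).filter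
        (fun x => Large p (κ * ff p * p) x)).card : ℝ) := by
  obtain ⟨κ, hκ, h⟩ := ap_main r m δ hδ hδ1
  refine ⟨κ, hκ, ?_⟩
  filter_upwards [h, eventually_gt_atTop (1 : ℝ)] with P h g1
  intro p hp hpP ρ Q b a M L hrank hL hJ
  subst hpP
  have hp0 : (0 : ℝ) < p := by linarith
  refine h p rfl _ a M L hL ?_
  intro t ht
  have hsymm : (∑ i, t i • (Q i + (Q i)ᵀ)).IsSymm := by
    unfold Matrix.IsSymm
    rw [Matrix.transpose_sum]
    refine sum_congr rfl fun i _ => ?_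
    rw [Matrix.transpose_smul, Matrix.transpose_add, Matrix.transpose_transpose, add_comm]
  obtain ⟨J, hJc, hJdet⟩ := exists_minor _ hsymm
  refine ⟨J, fun c h => ?_⟩
  obtain ⟨A, hA⟩ : ∃ A : Matrix (Fin r) (Fin r) (ZMod p), A = ∑ i, t i • Q i := ⟨_, rfl⟩
  obtain ⟨β, hβ⟩ : ∃ β : Fin r → ZMod p, β = ∑ i, t i • b i := ⟨_, rfl⟩
  have hAA : ∑ i, t i • (Q i + (Q i)ᵀ) = A + Aᵀ := by
    rw [hA, Matrix.transpose_sum, ← sum_add_distrib]
    refine sum_congr rfl fun i _ => ?_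
    rw [Matrix.transpose_smul, smul_add]
  rw [hAA] at hJdet
  have hval : ∀ x : Fin r → ZMod p, ∑ i, t i * (x ⬝ᵥ Q i *ᵥ x + b i ⬝ᵥ x) =
      x ⬝ᵥ A *ᵥ x + β ⬝ᵥ x := by
    intro x
    have e1 : A *ᵥ x = ∑ i, t i • (Q i *ᵥ x) := by
      rw [hA, Matrix.sum_mulVec]
      exact sum_congr rfl fun i _ => Matrix.smul_mulVec _ _ _
    rw [e1, hβ, dotProduct_sum, sum_dotProduct, ← sum_add_distrib]
    refine sum_congr rfl fun i _ => ?_
    rw [dotProduct_smul, smul_dotProduct, smul_eq_mul, smul_eq_mul, mul_add]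
  simp only [hval]
  refine (quad_sum A β J hJdet c h).trans ?_
  have h1 := hJ J (by rw [hJc]; exact hrank t ht)
  have h2 : (p : ℝ) ^ ((J.card : ℝ) / 2) = (p : ℝ) ^ ((J.card : ℝ) / 2 + m + δ) *
      (p : ℝ) ^ (-((m : ℝ) + δ)) := by
    rw [← Real.rpow_add hp0]
    congr 1
    ring
  rw [h2]
  exact mul_le_mul_of_nonneg_right h1 (by positivity)

end Pool.Agent.U642.LP
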